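import Mathlib

set_option autoImplicit false

/-!
# The path vertex cover number of chordal graphs: the proposed bound fails

The question is whether `ψ_k(G) ≤ (ω - 1) / (ω + k - 2) * n` for every `k ≥ 3` and every chordal graph
`G` with `n` vertices and clique number `ω`.  The answer is no, already for `k = 4` and `ω = 3`, where
the proposed bound is `2 n / 5`.  There is a `2`-tree with `17` vertices and `ψ_4 = 7 > 34 / 5`, and for
every `m ≥ 1` there is a connected chordal graph with clique number `3`, `17 m` vertices and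
`ψ_4 ≥ 7 m`, so that the bound fails by a constant factor.

The `2`-tree (found by an exact computation of the possible profiles of `2`-trees): it is built from the
edge `0 1` by adding the vertices `2, …, 16`, each adjacent to the two ends of an earlier edge, namely
`2: 01, 3: 12, 4: 23, 5: 24, 6: 34, 7: 46, 8: 67, 9: 78, 10: 89, 11: 9 10, 12: 9 11, 13: 10 11,
14: 10 13, 15: 11 13, 16: 11 15`.
Twenty paths on four vertices in this graph cannot be covered by six vertices; this is verified by
branching on the four vertices of a path which is not covered yet.  The connected graphs consist of `m`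
copies, in which the copies of the vertex `0` form a path.
-/

namespace Pool.Agent.Results.MP_708c97_co.TwoTrees

/-- Every cycle of length at least four has a chord. -/
def IsChordal {V : Type*} (G : SimpleGraph V) : Prop :=
  ∀ n : ℕ, 4 ≤ n → ∀ c : ZMod n → V, Function.Injective c → (∀ i, G.Adj (c i) (c (i + 1))) →
    ∃ i j, G.Adj (c i) (c j) ∧ j ≠ i + 1 ∧ i ≠ j + 1

/-- `S` is a `k`-path vertex cover: it contains a vertex of every path on `k` vertices. -/
def IsPathCover {V : Type*} (G : SimpleGraph V) (k : ℕ) (S : Finset V) : Prop :=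
  ∀ p : Fin k → V, Function.Injective p →
    (∀ i j : Fin k, (i : ℕ) + 1 = j → G.Adj (p i) (p j)) → ∃ i, p i ∈ S

/-- The `k`-path vertex cover number: the minimum size of a `k`-path vertex cover. -/
noncomputable def psi {V : Type*} (G : SimpleGraph V) (k : ℕ) : ℕ :=
  sInf {m | ∃ S : Finset V, IsPathCover G k S ∧ S.card = m}

/-! ### General lemmas -/

theorem chordal_of_order {V : Type*} (G : SimpleGraph V) (r : V → ℕ) (hr : Function.Injective r)
    (h : ∀ v a b, G.Adj v a → G.Adj v b → r a < r v → r b < r v → a ≠ b → G.Adj a b) :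
    IsChordal G := by
  intro n hn c hc hadj
  have : NeZero n := ⟨by omega⟩
  obtain ⟨i, -, hi⟩ := Finset.exists_max_image (Finset.univ : Finset (ZMod n)) (fun i => r (c i))
    ⟨0, Finset.mem_univ _⟩
  have hne1 : i + 1 ≠ i := by
    intro h1
    have := hadj i
    rw [h1] at this
    exact this.ne rfl
  have hne2 : i - 1 ≠ i := by
    intro h1
    have := hadj (i - 1)
    rw [sub_add_cancel, h1] at this
    exact this.ne rfl
  have h2 : ((2 : ℕ) : ZMod n) ≠ 0 := by
    rw [Ne, ZMod.natCast_eq_zero_iff]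
    intro h1
    have := Nat.le_of_dvd (by norm_num) h1
    omega
  have h3 : ((3 : ℕ) : ZMod n) ≠ 0 := by
    rw [Ne, ZMod.natCast_eq_zero_iff]
    intro h1
    have := Nat.le_of_dvd (by norm_num) h1
    omega
  have hlt : ∀ j, j ≠ i → r (c j) < r (c i) := by
    intro j hj
    refine lt_of_le_of_ne (hi j (Finset.mem_univ _)) ?_
    intro h1
    exact hj (hc (hr h1))
  have ha1 : G.Adj (c i) (c (i + 1)) := hadj i
  have ha2 : G.Adj (c i) (c (i - 1)) := by
    have := hadj (i - 1)
    rw [sub_add_cancel] at this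
    exact this.symm
  refine ⟨i - 1, i + 1, ?_, ?_, ?_⟩
  · refine h (c i) _ _ ha2 ha1 (hlt _ hne2) (hlt _ hne1) ?_
    intro h1
    have h4 := hc h1
    apply h2
    have h5 : ((2 : ℕ) : ZMod n) = (i + 1) - (i - 1) := by push_cast; ring
    rw [h5, h4, sub_self]
  · intro h1
    rw [sub_add_cancel] at h1
    exact hne1 h1
  · intro h1
    apply h3
    have h5 : ((3 : ℕ) : ZMod n) = (i + 1 + 1) - (i - 1) := by push_cast; ring
    rw [h5, ← h1, sub_self]

theorem connected_of_order {V : Type*} (G : SimpleGraph V) (r : V → ℕ) (v₀ : V)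
    (h : ∀ v, v ≠ v₀ → ∃ u, G.Adj v u ∧ r u < r v) : G.Connected := by
  have key : ∀ n : ℕ, ∀ v, r v ≤ n → G.Reachable v v₀ := by
    intro n
    induction n with
    | zero =>
      intro v hv
      by_cases h1 : v = v₀
      · rw [h1]
      · obtain ⟨u, _, h3⟩ := h v h1
        omega
    | succ n ih =>
      intro v hv
      by_cases h1 : v = v₀
      · rw [h1]
      · obtain ⟨u, h2, h3⟩ := h v h1
        exact h2.reachable.trans (ih u (by omega))
  have : Nonempty V := ⟨v₀⟩
  exact ⟨fun u v => (key _ u le_rfl).trans (key _ v le_rfl).symm⟩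

/-! ### Certificates for hitting sets -/

/-- The set with the characteristic number `S` misses the quadruple `p`. -/
def missed (S : ℕ) (p : ℕ × ℕ × ℕ × ℕ) : Bool :=
  !(S.testBit p.1) && !(S.testBit p.2.1) && !(S.testBit p.2.2.1) && !(S.testBit p.2.2.2)

/-- Branching: `S` and `k` further elements cannot hit all the quadruples in the list. -/
def hard : List (ℕ × ℕ × ℕ × ℕ) → ℕ → ℕ → Bool
  | [], _, _ => false
  | p :: P, k, S =>
    if missed S p then
      match k with
      | 0 => true
      | k + 1 => hard P k (S ||| 2 ^ p.1) && hard P k (S ||| 2 ^ p.2.1) &&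
          hard P k (S ||| 2 ^ p.2.2.1) && hard P k (S ||| 2 ^ p.2.2.2)
    else hard P k S

theorem hard_spec (T : Finset ℕ) :
    ∀ (P : List (ℕ × ℕ × ℕ × ℕ)) (k S : ℕ),
      (∀ p ∈ P, p.1 ∈ T ∨ p.2.1 ∈ T ∨ p.2.2.1 ∈ T ∨ p.2.2.2 ∈ T) → hard P k S = true →
      k + 1 ≤ (T.filter (fun x => S.testBit x = false)).card := by
  intro P
  induction P with
  | nil =>
    intro k S _ h
    exact absurd h (by simp [hard])
  | cons p P ih =>
    intro k S hT h
    have hT' : ∀ p ∈ P, p.1 ∈ T ∨ p.2.1 ∈ T ∨ p.2.2.1 ∈ T ∨ p.2.2.2 ∈ T :=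
      fun q hq => hT q (List.mem_cons_of_mem _ hq)
    by_cases hm : missed S p = true
    · simp only [hard, if_pos hm] at h
      simp only [missed, Bool.and_eq_true, Bool.not_eq_true'] at hm
      obtain ⟨⟨⟨h1, h2⟩, h3⟩, h4⟩ := hm
      rcases k with _ | k
      · apply Finset.card_pos.2
        rcases hT p List.mem_cons_self with h | h | h | h
        · exact ⟨_, Finset.mem_filter.2 ⟨h, h1⟩⟩
        · exact ⟨_, Finset.mem_filter.2 ⟨h, h2⟩⟩
        · exact ⟨_, Finset.mem_filter.2 ⟨h, h3⟩⟩
        · exact ⟨_, Finset.mem_filter.2 ⟨h, h4⟩⟩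
      · have step : ∀ x, x ∈ T → S.testBit x = false → hard P k (S ||| 2 ^ x) = true →
            k + 1 + 1 ≤ (T.filter (fun y => S.testBit y = false)).card := by
          intro x hx hxS h1
          have h2 := ih _ _ hT' h1
          have h3 : (T.filter (fun y => (S ||| 2 ^ x).testBit y = false)).card <
              (T.filter (fun y => S.testBit y = false)).card := by
            apply Finset.card_lt_card
            rw [Finset.ssubset_iff_of_subset]
            · refine ⟨x, Finset.mem_filter.2 ⟨hx, hxS⟩, ?_⟩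
              intro h4
              have h5 := (Finset.mem_filter.1 h4).2
              rw [Nat.testBit_or, Nat.testBit_two_pow_self, Bool.or_true] at h5
              exact absurd h5 (by simp)
            · intro y hy
              rw [Finset.mem_filter] at hy ⊢
              refine ⟨hy.1, ?_⟩
              have h5 := hy.2
              rw [Nat.testBit_or, Bool.or_eq_false_iff] at h5
              exact h5.1
          omega
        simp only [Bool.and_eq_true] at h
        obtain ⟨⟨⟨g1, g2⟩, g3⟩, g4⟩ := h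
        rcases hT p List.mem_cons_self with h | h | h | h
        · exact step _ h h1 g1
        · exact step _ h h2 g2
        · exact step _ h h3 g3
        · exact step _ h h4 g4
    · simp only [hard, if_neg hm] at h
      exact ih _ _ hT' h

/-! ### The `2`-tree with seventeen vertices -/

/-- The earlier neighbours of the vertices. -/
def par (v : ℕ) : List ℕ :=
  [[], [0], [0, 1], [1, 2], [2, 3], [2, 4], [3, 4], [4, 6], [6, 7], [7, 8], [8, 9], [9, 10],
    [9, 11], [10, 11], [10, 13], [11, 13], [11, 15]].getD v []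

/-- The `2`-tree. -/
def H : SimpleGraph (Fin 17) where
  Adj x y := x.val ∈ par y.val ∨ y.val ∈ par x.val
  symm := ⟨fun x y h => h.symm⟩
  loopless := ⟨by decide⟩

instance : DecidableRel H.Adj := fun x y =>
  inferInstanceAs (Decidable (x.val ∈ par y.val ∨ y.val ∈ par x.val))

/-- Twenty paths on four vertices. -/
def paths : List (Fin 17 × Fin 17 × Fin 17 × Fin 17) :=
  [(9, 11, 13, 15), (8, 7, 9, 11), (0, 2, 4, 6), (14, 13, 15, 16), (5, 4, 6, 7), (10, 9, 11, 16),
    (0, 1, 3, 6), (12, 9, 10, 14), (10, 13, 15, 16), (1, 0, 2, 5), (12, 11, 15, 16),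
    (12, 11, 13, 14), (5, 2, 3, 4), (7, 8, 10, 14), (8, 7, 9, 12), (0, 1, 3, 4), (5, 2, 3, 6),
    (5, 4, 6, 8), (1, 3, 4, 6), (7, 8, 10, 13)]

/-- The same paths, as quadruples of natural numbers. -/
def paths' : List (ℕ × ℕ × ℕ × ℕ) :=
  [(9, 11, 13, 15), (8, 7, 9, 11), (0, 2, 4, 6), (14, 13, 15, 16), (5, 4, 6, 7), (10, 9, 11, 16),
    (0, 1, 3, 6), (12, 9, 10, 14), (10, 13, 15, 16), (1, 0, 2, 5), (12, 11, 15, 16),
    (12, 11, 13, 14), (5, 2, 3, 4), (7, 8, 10, 14), (8, 7, 9, 12), (0, 1, 3, 4), (5, 2, 3, 6),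
    (5, 4, 6, 8), (1, 3, 4, 6), (7, 8, 10, 13)]

theorem paths_eq : paths' = paths.map (fun p => (p.1.val, p.2.1.val, p.2.2.1.val, p.2.2.2.val)) := by
  decide

theorem paths_all : paths.all (fun p => decide (H.Adj p.1 p.2.1 ∧ H.Adj p.2.1 p.2.2.1 ∧
    H.Adj p.2.2.1 p.2.2.2 ∧ p.1 ≠ p.2.2.1 ∧ p.1 ≠ p.2.2.2 ∧ p.2.1 ≠ p.2.2.2)) = true := by
  decide +kernel

theorem paths_adj : ∀ p ∈ paths, H.Adj p.1 p.2.1 ∧ H.Adj p.2.1 p.2.2.1 ∧ H.Adj p.2.2.1 p.2.2.2 ∧
    p.1 ≠ p.2.2.1 ∧ p.1 ≠ p.2.2.2 ∧ p.2.1 ≠ p.2.2.2 := by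
  intro p hp
  exact of_decide_eq_true (List.all_eq_true.1 paths_all p hp)

theorem hard_paths : hard paths' 6 0 = true := by
  decide +kernel

/-- A `4`-path vertex cover of `H` has at least seven elements. -/
theorem cover_card (T : Finset (Fin 17)) (hT : IsPathCover H 4 T) : 7 ≤ T.card := by
  have key : ∀ p ∈ paths', p.1 ∈ T.image Fin.val ∨ p.2.1 ∈ T.image Fin.val ∨
      p.2.2.1 ∈ T.image Fin.val ∨ p.2.2.2 ∈ T.image Fin.val := by
    intro p hp
    rw [paths_eq, List.mem_map] at hp
    obtain ⟨q, hq, rfl⟩ := hp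
    obtain ⟨h1, h2, h3, h4, h5, h6⟩ := paths_adj q hq
    obtain ⟨i, hi⟩ := hT ![q.1, q.2.1, q.2.2.1, q.2.2.2] (by
      intro i j hij
      have e1 := h1.ne
      have e2 := h2.ne
      have e3 := h3.ne
      fin_cases i <;> fin_cases j <;> simp_all [eq_comm]) (by
      intro i j hij
      fin_cases i <;> fin_cases j <;> simp_all)
    fin_cases i
    · exact Or.inl (Finset.mem_image_of_mem _ hi)
    · exact Or.inr (Or.inl (Finset.mem_image_of_mem _ hi))
    · exact Or.inr (Or.inr (Or.inl (Finset.mem_image_of_mem _ hi)))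
    · exact Or.inr (Or.inr (Or.inr (Finset.mem_image_of_mem _ hi)))
  have h := hard_spec (T.image Fin.val) paths' 6 0 key hard_paths
  have h2 : ((T.image Fin.val).filter (fun x => (0 : ℕ).testBit x = false)).card ≤
      (T.image Fin.val).card := Finset.card_filter_le _ _
  have h3 : (T.image Fin.val).card ≤ T.card := Finset.card_image_le
  omega

/-! ### The connected graphs -/

/-- `m` copies of `H`; the copies of the vertex `0` form a path. -/
def Chain (m : ℕ) : SimpleGraph (Fin m × Fin 17) where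
  Adj u v := (u.1 = v.1 ∧ H.Adj u.2 v.2) ∨
    (u.2 = 0 ∧ v.2 = 0 ∧ (u.1.val + 1 = v.1.val ∨ v.1.val + 1 = u.1.val))
  symm := ⟨by
    rintro u v (⟨h1, h2⟩ | ⟨h1, h2, h3⟩)
    · exact Or.inl ⟨h1.symm, h2.symm⟩
    · exact Or.inr ⟨h2, h1, h3.symm⟩⟩
  loopless := ⟨by
    rintro u (⟨_, h⟩ | ⟨_, _, h⟩)
    · exact h.ne rfl
    · omega⟩

/-- The position in the lexicographic order. -/
def rk (m : ℕ) (u : Fin m × Fin 17) : ℕ := 17 * u.1.val + u.2.val

theorem rk_inj (m : ℕ) : Function.Injective (rk m) := by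
  rintro ⟨i, x⟩ ⟨j, y⟩ h
  unfold rk at h
  simp only at h
  have h1 := x.isLt
  have h2 := y.isLt
  have h3 : i.val = j.val := by omega
  have h4 : x.val = y.val := by omega
  exact Prod.ext (Fin.ext h3) (Fin.ext h4)

theorem H_early : ∀ x a b : Fin 17, H.Adj x a → H.Adj x b → a < x → b < x → a ≠ b → H.Adj a b := by
  decide +kernel

theorem H_down : ∀ x : Fin 17, x ≠ 0 → ∃ a, H.Adj x a ∧ a < x := by
  decide +kernel

/-- A colouring of `H`. -/
def col (x : Fin 17) : ZMod 3 :=
  [0, 1, 2, 0, 1, 0, 2, 0, 1, 2, 0, 1, 0, 2, 1, 0, 2].getD x.val 0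

theorem chain_chordal (m : ℕ) : IsChordal (Chain m) := by
  apply chordal_of_order (Chain m) (rk m) (rk_inj m)
  rintro ⟨i, x⟩ ⟨j, a⟩ ⟨k, b⟩ h1 h2 h3 h4 h5
  unfold rk at h3 h4
  simp only at h3 h4
  have ha := a.isLt
  have hb := b.isLt
  have hx := x.isLt
  rcases h1 with ⟨e1, h1⟩ | ⟨e1, e2, h1⟩
  · simp only at e1 h1
    subst e1
    rcases h2 with ⟨e1, h2⟩ | ⟨e3, e4, h2⟩
    · simp only at e1 h2
      subst e1
      left
      refine ⟨rfl, H_early x a b h1 h2 ?_ ?_ ?_⟩
      · exact Fin.lt_def.2 (by omega)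
      · exact Fin.lt_def.2 (by omega)
      · intro h
        apply h5
        rw [h]
    · simp only at e3 e4 h2
      subst e3
      simp only [Fin.val_zero] at h3
      omega
  · simp only at e1 e2 h1
    subst e1
    subst e2
    simp only [Fin.val_zero] at h3 h4
    rcases h2 with ⟨e1, h2⟩ | ⟨e3, e4, h2⟩
    · simp only at e1 h2
      subst e1
      omega
    · simp only at e3 e4 h2
      subst e4
      exfalso
      apply h5
      simp only [Fin.val_zero] at h4
      have : j.val = k.val := by omega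
      rw [Fin.ext this]

theorem chain_connected (m : ℕ) (hm : 1 ≤ m) : (Chain m).Connected := by
  apply connected_of_order (Chain m) (rk m) (⟨0, hm⟩, 0)
  rintro ⟨i, x⟩ hne
  by_cases hx : x = 0
  · subst hx
    have hi : i.val ≠ 0 := by
      intro h
      apply hne
      exact Prod.ext (Fin.ext h) rfl
    refine ⟨(⟨i.val - 1, by omega⟩, 0), Or.inr ⟨rfl, rfl, Or.inr ?_⟩, ?_⟩
    · simp only
      omega
    · unfold rk
      simp only
      omega
  · obtain ⟨a, h1, h2⟩ := H_down x hx
    refine ⟨(i, a), Or.inl ⟨rfl, h1⟩, ?_⟩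
    unfold rk
    simp only
    have := Fin.lt_def.1 h2
    omega

theorem col_proper : ∀ x y : Fin 17, H.Adj x y → col x ≠ col y := by
  decide +kernel

theorem chain_cliqueFree (m : ℕ) : (Chain m).CliqueFree 4 := by
  have hc : (Chain m).Colorable 3 := by
    let c : (Chain m).Coloring (ZMod 3) := SimpleGraph.Coloring.mk
      (fun u => col u.2 + (if Even u.1.val then 0 else 1)) (by
        rintro ⟨i, x⟩ ⟨j, y⟩ (⟨h1, h2⟩ | ⟨h1, h2, h3⟩)
        · simp only at h1 h2
          subst h1
          simp only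
          intro h
          exact col_proper x y h2 (add_right_cancel h)
        · simp only at h1 h2 h3
          subst h1
          subst h2
          simp only
          intro h
          have h4 := add_left_cancel h
          rcases h3 with h3 | h3
          · have h6 : Even j.val ↔ ¬ Even i.val := by rw [← h3, Nat.even_add_one]
            by_cases h5 : Even i.val
            · simp [h5, h6] at h4
            · simp [h5, h6] at h4
          · have h6 : Even i.val ↔ ¬ Even j.val := by rw [← h3, Nat.even_add_one]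
            by_cases h5 : Even j.val
            · simp [h5, h6] at h4
            · simp [h5, h6] at h4)
    have := c.colorable
    rwa [ZMod.card] at this
  exact hc.cliqueFree (by norm_num)

theorem chain_cliqueNum (m : ℕ) (hm : 1 ≤ m) : (Chain m).cliqueNum = 3 := by
  apply le_antisymm
  · by_contra h
    obtain ⟨s, hs⟩ := (Chain m).exists_isNClique_cliqueNum
    exact (chain_cliqueFree m).mono (by omega) s hs
  · have hs : (Chain m).IsClique (({(⟨0, hm⟩, 0), (⟨0, hm⟩, 1), (⟨0, hm⟩, 2)} :
        Finset (Fin m × Fin 17)) : Set (Fin m × Fin 17)) := by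
      have e1 : H.Adj 0 1 := by decide
      have e2 : H.Adj 0 2 := by decide
      have e3 : H.Adj 1 2 := by decide
      intro u hu v hv huv
      simp only [Finset.coe_insert, Finset.coe_singleton, Set.mem_insert_iff,
        Set.mem_singleton_iff] at hu hv
      left
      rcases hu with rfl | rfl | rfl <;> rcases hv with rfl | rfl | rfl <;>
        first
        | exact absurd rfl huv
        | exact ⟨rfl, e1⟩
        | exact ⟨rfl, e2⟩
        | exact ⟨rfl, e3⟩
        | exact ⟨rfl, e1.symm⟩
        | exact ⟨rfl, e2.symm⟩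
        | exact ⟨rfl, e3.symm⟩
    have := hs.card_le_cliqueNum
    have hcard : ({(⟨0, hm⟩, 0), (⟨0, hm⟩, 1), (⟨0, hm⟩, 2)} :
        Finset (Fin m × Fin 17)).card = 3 := by
      rw [Finset.card_insert_of_notMem, Finset.card_insert_of_notMem, Finset.card_singleton]
      · simp
      · simp
    rwa [hcard] at this

theorem chain_cover (m : ℕ) (S : Finset (Fin m × Fin 17)) (hS : IsPathCover (Chain m) 4 S) :
    7 * m ≤ S.card := by
  classical
  have h1 : S.card = ∑ i : Fin m, (S.filter (fun u => u.1 = i)).card :=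
    Finset.card_eq_sum_card_fiberwise (fun _ _ => Finset.mem_univ _)
  have h2 : ∀ i : Fin m, 7 ≤ (S.filter (fun u => u.1 = i)).card := by
    intro i
    have h3 : IsPathCover H 4 ((S.filter (fun u => u.1 = i)).image Prod.snd) := by
      intro p hp hadj
      obtain ⟨j, hj⟩ := hS (fun j => (i, p j)) (by
        intro a b hab
        exact hp (congrArg Prod.snd hab)) (fun a b hab => Or.inl ⟨rfl, hadj a b hab⟩)
      exact ⟨j, Finset.mem_image.2 ⟨(i, p j), Finset.mem_filter.2 ⟨hj, rfl⟩, rfl⟩⟩
    exact (cover_card _ h3).trans Finset.card_image_le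
  rw [h1]
  calc 7 * m = ∑ _i : Fin m, 7 := by simp [mul_comm]
    _ ≤ _ := Finset.sum_le_sum (fun i _ => h2 i)

theorem chain_psi (m : ℕ) : 7 * m ≤ psi (Chain m) 4 := by
  unfold psi
  apply le_csInf
  · refine ⟨_, Finset.univ, ?_, rfl⟩
    intro p _ _
    exact ⟨0, Finset.mem_univ _⟩
  · rintro b ⟨S, hS, rfl⟩
    exact chain_cover m S hS

/-- The answer is no.  For every `m ≥ 1` there is a connected chordal graph with `17 m` vertices,
clique number `3` and `ψ_4 ≥ 7 m`, whereas the proposed bound is `34 m / 5`. -/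
theorem result :
    (¬ ∀ k : ℕ, 3 ≤ k → ∀ (V : Type) [Fintype V] (G : SimpleGraph V), IsChordal G →
      (psi G k : ℝ) ≤ ((G.cliqueNum : ℝ) - 1) / ((G.cliqueNum : ℝ) + k - 2) * Fintype.card V) ∧
    ∀ m : ℕ, 1 ≤ m → ∃ G : SimpleGraph (Fin m × Fin 17),
      G.Connected ∧ IsChordal G ∧ G.cliqueNum = 3 ∧ 7 * m ≤ psi G 4 := by
  refine ⟨?_, fun m hm => ⟨Chain m, chain_connected m hm, chain_chordal m, chain_cliqueNum m hm,
    chain_psi m⟩⟩
  intro h
  have h1 := h 4 (by norm_num) (Fin 1 × Fin 17) (Chain 1) (chain_chordal 1)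
  have h2 := chain_psi 1
  rw [chain_cliqueNum 1 le_rfl] at h1
  have h3 : ((7 : ℕ) : ℝ) ≤ (psi (Chain 1) 4 : ℝ) := by exact_mod_cast h2
  simp only [Fintype.card_prod, Fintype.card_fin] at h1
  push_cast at h1 h3
  norm_num at h1
  linarith

end Pool.Agent.Results.MP_708c97_co.TwoTrees
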